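import Pool.Agent.TH783.CE.Hom

/-!
# The unit ball at a complex place is flat
-/

set_option autoImplicit false

namespace Pool.Agent.TH783.UB

open Polynomial Pool.Agent.TH783.CE Filter Topology

/-- a field with a nonreal embedding is dense in `ℂ` -/
theorem denseRange_of_nonreal {K : Type} [Field K] (σ : K →+* ℂ) {z : K} (hz : (σ z).im ≠ 0) :
    DenseRange σ := by
  have h1 : DenseRange (Prod.map (fun q : ℚ => (q : ℝ)) (fun q : ℚ => (q : ℝ))) :=
    Rat.denseRange_cast.prodMap Rat.denseRange_cast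
  set g : ℝ × ℝ → ℂ := fun x => (x.1 : ℂ) + (x.2 : ℂ) * σ z with hg
  have hgc : Continuous g := by
    rw [hg]
    fun_prop
  have hgs : Function.Surjective g := by
    intro w
    refine ⟨(w.re - w.im / (σ z).im * (σ z).re, w.im / (σ z).im), ?_⟩
    apply Complex.ext
    · simp [hg]
    · simp [hg]
      field_simp
  have h2 : DenseRange (g ∘ Prod.map (fun q : ℚ => (q : ℝ)) (fun q : ℚ => (q : ℝ))) :=
    hgs.denseRange.comp h1 hgc
  refine Dense.mono ?_ h2
  rintro _ ⟨⟨p, q⟩, rfl⟩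
  exact ⟨(p : K) + (q : K) * z, by simp [hg]⟩

/-- the closed unit ball -/
def ball {K : Type} [Field K] (σ : K →+* ℂ) : Set K := {x | ‖σ x‖ ≤ 1}

theorem flat_ball {K : Type} [Field K] [CharZero K] (σ : K →+* ℂ) {z : K} (hz : (σ z).im ≠ 0) :
    Flat (ball σ) := by
  classical
  intro p₀ p₁ h0 h
  obtain ⟨g, q₀, q₁, hg0, hq0, hq1, a, b, hab⟩ : ∃ g q₀ q₁ : K[X], g ≠ 0 ∧ p₀ = g * q₀ ∧
      p₁ = g * q₁ ∧ ∃ a b : K[X], a * q₀ + b * q₁ = 1 := by
    have hg : EuclideanDomain.gcd p₁ p₀ ≠ 0 := fun h => h0 (EuclideanDomain.gcd_eq_zero_iff.1 h).2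
    obtain ⟨q₀, hq₀⟩ := EuclideanDomain.gcd_dvd_right p₁ p₀
    obtain ⟨q₁, hq₁⟩ := EuclideanDomain.gcd_dvd_left p₁ p₀
    refine ⟨EuclideanDomain.gcd p₁ p₀, q₀, q₁, hg, hq₀, hq₁,
      EuclideanDomain.gcdB p₁ p₀, EuclideanDomain.gcdA p₁ p₀, ?_⟩
    have h1 := EuclideanDomain.gcd_eq_gcd_ab p₁ p₀
    generalize EuclideanDomain.gcdB p₁ p₀ = b at *
    generalize EuclideanDomain.gcdA p₁ p₀ = a at *
    generalize EuclideanDomain.gcd p₁ p₀ = g at *
    have h2 : g * (b * q₀ + a * q₁ - 1) = 0 := by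
      rw [hq₀, hq₁] at h1
      linear_combination -h1
    exact sub_eq_zero.1 ((mul_eq_zero.1 h2).resolve_left hg)
  have hq00 : q₀ ≠ 0 := by
    rintro rfl
    exact h0 (by rw [hq0, mul_zero])
  have hfin : {s : K | (g * q₀).eval s = 0}.Finite := by
    have : {s : K | (g * q₀).eval s = 0} ⊆ (g * q₀).roots.toFinset := by
      intro s hs
      simp only [Finset.mem_coe, Multiset.mem_toFinset]
      exact (mem_roots (mul_ne_zero hg0 hq00)).2 hs
    exact (Finset.finite_toSet _).subset this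
  have hcont : ∀ q : K[X], Continuous fun x : ℂ => q.eval₂ σ x := fun q => by
    have := (q.map σ).continuous
    simpa [eval_map] using this
  -- the inequality holds everywhere
  have hle : ∀ w : ℂ, ‖q₁.eval₂ σ w‖ ≤ ‖q₀.eval₂ σ w‖ := by
    have hcl : IsClosed {w : ℂ | ‖q₁.eval₂ σ w‖ ≤ ‖q₀.eval₂ σ w‖} :=
      isClosed_le (hcont q₁).norm (hcont q₀).norm
    have hd : Dense (Set.range σ \ (σ '' {s : K | (g * q₀).eval s = 0})) :=
      (denseRange_of_nonreal σ hz).sdiff_finite (hfin.image _)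
    have hsub : Set.range σ \ (σ '' {s : K | (g * q₀).eval s = 0}) ⊆
        {w : ℂ | ‖q₁.eval₂ σ w‖ ≤ ‖q₀.eval₂ σ w‖} := by
      rintro _ ⟨⟨s, rfl⟩, hs⟩
      have hs1 : (g * q₀).eval s ≠ 0 := fun h => hs ⟨s, h, rfl⟩
      rw [eval_mul] at hs1
      have h1 := h s (by rw [hq0, eval_mul]; exact hs1)
      rw [hq0, hq1, eval_mul, eval_mul, mul_div_mul_left _ _ (left_ne_zero_of_mul hs1)] at h1
      have h2 : ‖σ (q₁.eval s / q₀.eval s)‖ ≤ 1 := h1
      rw [map_div₀, norm_div, div_le_one (norm_pos_iff.2 (by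
        rw [Ne, map_eq_zero_iff σ σ.injective]
        exact right_ne_zero_of_mul hs1))] at h2
      show ‖q₁.eval₂ σ (σ s)‖ ≤ ‖q₀.eval₂ σ (σ s)‖
      rw [eval₂_at_apply, eval₂_at_apply]
      exact h2
    intro w
    have h3 := closure_minimal hsub hcl
    rw [hd.closure_eq] at h3
    exact h3 (Set.mem_univ w)
  rcases Nat.eq_zero_or_pos q₀.natDegree with hd0 | hd0
  · rcases Nat.eq_zero_or_pos q₁.natDegree with hd1 | hd1
    · rw [eq_C_of_natDegree_eq_zero hd0] at hq0 hq00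
      rw [eq_C_of_natDegree_eq_zero hd1] at hq1
      have hc : q₀.coeff 0 ≠ 0 := fun h => hq00 (by rw [h, C_0])
      refine ⟨q₁.coeff 0 / q₀.coeff 0, ?_⟩
      rw [hq1, hq0, mul_left_comm, ← C_mul, div_mul_cancel₀ _ hc]
    · exfalso
      have hz : Tendsto (fun k : ℕ => ‖((k : ℕ) : ℂ)‖) atTop atTop := by
        simpa using tendsto_natCast_atTop_atTop (R := ℝ)
      have h1 : Tendsto (fun k : ℕ => ‖q₁.eval₂ σ (k : ℂ)‖) atTop atTop := by
        have h2 := tendsto_norm_atTop (R := ℂ) (q₁.map σ) (by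
          rw [degree_map]
          exact natDegree_pos_iff_degree_pos.1 hd1) hz
        simpa [eval_map] using h2
      obtain ⟨k, hk⟩ := (h1.eventually_gt_atTop ‖σ (q₀.coeff 0)‖).exists
      have h3 := hle (k : ℂ)
      rw [eq_C_of_natDegree_eq_zero hd0, eval₂_C] at h3
      linarith
  · exfalso
    obtain ⟨α, hα⟩ := IsAlgClosed.exists_root (q₀.map σ) (by
      rw [degree_map]
      exact (natDegree_pos_iff_degree_pos.1 hd0).ne')
    have hα0 : q₀.eval₂ σ α = 0 := by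
      rw [← eval_map]
      exact hα
    have h1 := hle α
    rw [hα0, norm_zero] at h1
    have hα1 : q₁.eval₂ σ α = 0 := norm_le_zero_iff.1 h1
    have h2 := congrArg (fun q : K[X] => q.eval₂ σ α) hab
    simp only [eval₂_add, eval₂_mul, hα0, hα1, mul_zero, add_zero, eval₂_one] at h2
    exact zero_ne_one h2

/-- the complement of the open unit ball, with zero added -/
def coball {K : Type} [Field K] (σ : K →+* ℂ) : Set K := {x | x = 0 ∨ 1 ≤ ‖σ x‖}

theorem flat_coball {K : Type} [Field K] [CharZero K] (σ : K →+* ℂ) {z : K}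
    (hz : (σ z).im ≠ 0) : Flat (coball σ) := by
  intro p₀ p₁ h0 h
  by_cases h1 : p₁ = 0
  · exact ⟨0, by rw [h1, C_0, zero_mul]⟩
  obtain ⟨c, hc⟩ := flat_ball σ hz p₁ p₀ h1 (by
    intro s hs
    show ‖σ _‖ ≤ 1
    by_cases hs0 : p₀.eval s = 0
    · rw [hs0, zero_div, map_zero, norm_zero]
      exact zero_le_one
    · rcases h s hs0 with h2 | h2
      · exact absurd ((div_eq_zero_iff.1 h2).resolve_right hs0) hs
      · rw [map_div₀, norm_div] at h2 ⊢
        have h3 : 0 < ‖σ (p₀.eval s)‖ := norm_pos_iff.2 (by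
          rw [Ne, map_eq_zero_iff σ σ.injective]
          exact hs0)
        have h4 : 0 < ‖σ (p₁.eval s)‖ := norm_pos_iff.2 (by
          rw [Ne, map_eq_zero_iff σ σ.injective]
          exact hs)
        rw [one_le_div h3] at h2
        exact (div_le_one h4).2 h2)
  have hc0 : c ≠ 0 := by
    rintro rfl
    rw [C_0, zero_mul] at hc
    exact h0 hc
  exact ⟨c⁻¹, by rw [hc, ← mul_assoc, ← C_mul, inv_mul_cancel₀ hc0, C_1, one_mul]⟩

/-- inverses -/
theorem thin_affine_inv {K : Type} [Field K] [CharZero K] {O : Set K} (hO : Flat O)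
    (h0O : (0 : K) ∈ O) {n : ℕ} (f : MvPolynomial (Fin (n + 1)) K) (hf : f.totalDegree ≤ 3)
    (h : ∀ (t : K) (z : Fin n → K), t ≠ 0 → MvPolynomial.eval (Fin.cons t z) f = 0 →
      t⁻¹ ∈ O) :
    Thin {s : K | s ≠ 0 ∧ ∃ z : Fin n → K, MvPolynomial.eval (Fin.cons s⁻¹ z) f = 0} := by
  obtain ⟨T, hT⟩ := rep_affine f hf
  simp only at hT
  have hdec : ∀ P : Fin (n + 2) → K, P 0 ≠ 0 → T.f P P P = 0 →
      MvPolynomial.eval (Fin.cons (P 1 / P 0) fun i => P i.succ.succ / P 0) f = 0 := by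
    intro P hP0 hP
    rw [← hT]
    have e : aug (Fin.cons (P 1 / P 0) fun i => P i.succ.succ / P 0) = (P 0)⁻¹ • P := by
      funext i
      refine Fin.cases ?_ (fun i => ?_) i
      · rw [aug_zero, Pi.smul_apply, smul_eq_mul, inv_mul_cancel₀ hP0]
      · rw [aug_succ]
        refine Fin.cases ?_ (fun i => ?_) i
        · rw [Fin.cons_zero, Pi.smul_apply, smul_eq_mul, div_eq_inv_mul]
          rfl
        · rw [Fin.cons_succ, Pi.smul_apply, smul_eq_mul, div_eq_inv_mul]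
    rw [e]
    simp only [map_smul, LinearMap.smul_apply, hP, smul_zero]
  have hVD : VD O T (LinearMap.proj 1) (LinearMap.proj 0) := by
    intro P hP hP1
    have hP1' : P 1 ≠ 0 := hP1
    show P 0 / P 1 ∈ O
    by_cases hP0 : P 0 = 0
    · rw [hP0, zero_div]
      exact h0O
    · have := h _ _ (div_ne_zero hP1' hP0) (hdec P hP0 hP)
      rwa [inv_div] at this
  refine (thin_main hO _ _ T _ _ rfl hVD).mono ?_
  rintro s ⟨hs, z, hz⟩
  refine ⟨aug (Fin.cons s⁻¹ z), ?_, ?_, ?_⟩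
  · rw [hT, hz]
  · show aug (Fin.cons s⁻¹ z) (Fin.succ 0) ≠ 0
    rw [aug_succ, Fin.cons_zero]
    exact inv_ne_zero hs
  · show aug (Fin.cons s⁻¹ z) 0 = s * aug (Fin.cons s⁻¹ z) (Fin.succ 0)
    rw [aug_succ, aug_zero, Fin.cons_zero, mul_inv_cancel₀ hs]

end Pool.Agent.TH783.UB
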